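import Pool.Agent.helper92.IR.HLG
import Pool.Agent.helper52.IR.SpecC
import Pool.Agent.helper10.MS.CRE
import Pool.Agent.helper59.MS.FNM

/-!
# MP_07c750, project IR: the uniform part, for the same lift

Copies of the proofs of the rows ms:CRE, ms:FNM (helper10, helper59) and ir:HLG (helper92), for one and the same lift `μ`: if mass `m` of `μ` is covered by `e^(δ n)` boxes (`CV`), then `ν ≥ m` times the uniform measure.
-/

set_option autoImplicit false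

open scoped MatrixGroups ContDiff Topology UpperHalfPlane ENNReal NNReal
open UpperHalfPlane MeasureTheory Filter Set

namespace Pool.Agent.IR

open Pool.Agent.RS
open Pool.Agent.MS (bq BB BA SF pf DU1_lift DU1_lift_mk DU1_lift_cont DU1_int CV CRE_int CRE_lim CRE_set FNM_le)
open Pool.Agent.EN (XG MG mkX mkM fl pr)

/-- the property of the lift `μ` in the row MU -/
def MP (Γ : Subgroup SL(2, ℝ)) (F : Set ℍ) (β α : ℝ → ℝ) (r : ℕ → ℝ) (φ : ℕ → ℍ → ℂ) (μ : Measure (XG Γ)) : Prop :=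
  ∀ (Ψ : XG Γ → ℝ) (b : ℝ), Continuous Ψ → b < ∫ x, Ψ x ∂μ → ∃ᶠ k in atTop, ∃ t : ℝ, Real.sqrt (Real.log (r k)) ≤ t ∧ t ≤ Real.log (r k) - Real.sqrt (Real.log (r k)) ∧
    b * qn F (pc β α) (r k) (φ k) < iR F (fun g => Ψ (mkX Γ (g * aM t)) * ‖pf β α (r k) (φ k) g‖ ^ 2)

/-- the row CRE for a given lift -/
theorem UP_cre (h3 : MS.MS1_stmt) (Γ : Subgroup SL(2, ℝ)) (F : Set ℍ) (r : ℕ → ℝ) (φ : ℕ → ℍ → ℂ) (ν : Measure (MG Γ)) (hΓ : QU.SurfaceGroup Γ) (hF : QU.NiceDom Γ F)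
    (hr : Tendsto r atTop atTop) (hφ : ∀ k, Eig Γ (r k) (φ k)) (hnn : ∀ k, nn F (φ k) = 1) (hν : IsFiniteMeasure ν)
    (hlim : ∀ V : MG Γ → ℝ, Continuous V → Tendsto (fun k => ∫ z in F, V (mkM Γ z) * ‖φ k z‖ ^ 2) atTop (𝓝 (∫ x, V x ∂ν)))
    (β α : ℝ → ℝ) (hβ : BB (1 / 4) β) (hα : BA (1 / 8) α) (μ : Measure (XG Γ)) (hμp : IsProbabilityMeasure μ) (hμ : MP Γ F β α r φ μ)
    (m : ℝ) (hm0 : 0 ≤ m) (hm1 : m ≤ 1) (hCV : ∀ a : ℝ, 0 < a → CV Γ μ m a) :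
    ∀ V : MG Γ → ℝ, Continuous V → (∀ x, 0 ≤ V x ∧ V x ≤ 1) → m * ((∫ z in F, V (mkM Γ z)) / (volume F).toReal) ≤ ∫ x, V x ∂ν := by
  obtain ⟨-, hpr, hmkX, homX, hsX, hmkM, homM, hsM, -, -, heqX, heqM⟩ := EN.XFL_proof Γ
  -- functions of class `C²`
  have hkey : ∀ V' : MG Γ → ℝ, Continuous V' → (∀ x, 0 ≤ V' x ∧ V' x ≤ 1) →
      QU.CD 2 (fun z => V' (mkM Γ z)) →
        m * ((∫ z in F, V' (mkM Γ z)) / (volume F).toReal) ≤ ∫ x, V' x ∂ν := by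
    intro V' hV' h01 hCD
    refine CRE_lim _ _ _ fun ε hε0 hε1 => ?_
    obtain ⟨a, δ, n1, ha, hδ, hδε, hA⟩ := h3 Γ F (fun z => V' (mkM Γ z)) β α hΓ hF
      ⟨hV'.comp hmkM, fun γ z => by
        have : mkM Γ (γ • z) = mkM Γ z := ((heqM z (γ • z)).2 ⟨γ, rfl⟩).symm
        exact congrArg V' this⟩ hCD (fun z => h01 _) hβ hα ε hε0 hε1
    obtain ⟨n0, hn0⟩ := hCV a ha δ hδ
    obtain ⟨A, hAc, hAm⟩ := hn0 (max n0 n1) (le_max_left _ _)
    obtain ⟨Ψ, r2, hΨi, hΨ01, hΨ1, hr2, hmain⟩ := hA (max n0 n1) (le_max_right _ _) A hAc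
    have hlift : ∀ g g' : SL(2, ℝ), (MulAction.orbitRel Γ SL(2, ℝ)) g g' → Ψ g = Ψ g' := by
      rintro g g' ⟨γ, hγ⟩
      have hγ' : (γ : SL(2, ℝ)) * g' = g := hγ
      rw [← hγ', hΨi.2 γ g']
    set Ψ' : XG Γ → ℝ := Quotient.lift Ψ hlift with hΨ'
    have hΨ'c : Continuous Ψ' := hΨi.1.quotient_lift hlift
    have hΨ'm : ∀ g, Ψ' (mkX Γ g) = Ψ g := fun g => rfl
    have hΨ'01 : ∀ x, 0 ≤ Ψ' x ∧ Ψ' x ≤ 1 := by
      intro x
      obtain ⟨g, rfl⟩ := hsX x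
      rw [hΨ'm]
      exact hΨ01 g
    have hS := CRE_set μ Ψ' hΨ'c hΨ'01
      {x | ∃ y ∈ A, ∃ h : SL(2, ℝ), bq a a (a * Real.exp (-(max n0 n1 : ℕ))) h ∧ x = mkX Γ (y * h)}
      (by
        rintro x ⟨y, hy, h, hh, rfl⟩
        rw [hΨ'm]
        refine hΨ1 (y * h) ⟨y, hy, 1, ?_⟩
        have : y⁻¹ * ((1 : Γ) : SL(2, ℝ)) * (y * h) = h := by
          rw [Subgroup.coe_one, mul_one, inv_mul_cancel_left]
        rw [this]
        exact hh)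
    have hb : m - 2 * δ < ∫ x, Ψ' x ∂μ := by linarith
    have hfr := hμ Ψ' (m - 2 * δ) hΨ'c hb
    have hev1 : ∀ᶠ k in atTop, r2 ≤ r k := hr.eventually_ge_atTop r2
    have hev2 : ∀ᶠ k in atTop, ∫ z in F, V' (mkM Γ z) * ‖φ k z‖ ^ 2 < ∫ x, V' x ∂ν + ε :=
      (hlim V' hV').eventually (gt_mem_nhds (by linarith))
    obtain ⟨k, ⟨t, ht1, ht2, ht3⟩, hk1, hk2⟩ := (hfr.and_eventually (hev1.and hev2)).exists
    have hEL : EigL Γ (1 / 4 + r k ^ 2) (φ k) := by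
      refine ⟨(hφ k).1.of_le (WithTop.coe_le_coe.2 (le_top : (2 : ℕ∞) ≤ ⊤)), (hφ k).2.1, (hφ k).2.2⟩
    have := hmain (r k) m t (φ k) hk1 hEL (hnn k) hm0 hm1 ht1 ht2 ht3
    linarith
  -- continuous functions
  intro V hVc h01
  obtain ⟨K, hK, hFK⟩ := hF.rel
  have hFfin : volume F ≠ ⊤ := ((measure_mono hFK).trans_lt hK.measure_lt_top).ne
  have hfr : IsFiniteMeasure ((volume : Measure ℍ).restrict F) :=
    ⟨by rw [Measure.restrict_apply_univ]; exact hFfin.lt_top⟩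
  have hν0 : 0 ≤ ν.real univ := measureReal_nonneg
  refine le_of_forall_pos_le_add fun η hη => ?_
  have hD0 : 0 < 1 + ν.real univ := by linarith
  have hε0 : 0 < η / (1 + ν.real univ) := div_pos hη hD0
  have hε2 : η / (1 + ν.real univ) * (1 + ν.real univ) = η := div_mul_cancel₀ _ hD0.ne'
  generalize η / (1 + ν.real univ) = ε at hε0 hε2
  obtain ⟨h', hi, hCD, happ, h01'⟩ := RS.ESM Γ (fun z => V (mkM Γ z)) 0 1 ε hΓ
    ⟨hVc.comp hmkM, fun γ z => by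
      have : mkM Γ (γ • z) = mkM Γ z := ((heqM z (γ • z)).2 ⟨γ, rfl⟩).symm
      exact congrArg V this⟩ (fun z => h01 _) hε0
  have hlift : ∀ a b : ℍ, (MulAction.orbitRel Γ ℍ) a b → h' a = h' b := by
    rintro a b ⟨γ, hγ⟩
    have hγ' : γ • b = a := hγ
    rw [← hγ', hi.2 γ b]
  set V' : MG Γ → ℝ := Quotient.lift h' hlift with hV'
  have hV'c : Continuous V' := hi.1.quotient_lift hlift
  have hV'm : ∀ z, V' (mkM Γ z) = h' z := fun z => rfl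
  have hV'01 : ∀ x, 0 ≤ V' x ∧ V' x ≤ 1 := by
    intro x
    obtain ⟨z, rfl⟩ := hsM x
    rw [hV'm]
    exact h01' z
  have hV'a : ∀ x, |V' x - V x| ≤ ε := by
    intro x
    obtain ⟨z, rfl⟩ := hsM x
    rw [hV'm]
    exact happ z
  have k1 := hkey V' hV'c hV'01 hCD
  have i1 : Integrable (fun z => V (mkM Γ z)) ((volume : Measure ℍ).restrict F) :=
    CRE_int _ _ (hVc.comp hmkM) fun z => h01 _
  have i2 : Integrable (fun z => V' (mkM Γ z)) ((volume : Measure ℍ).restrict F) :=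
    CRE_int _ _ (hV'c.comp hmkM) fun z => hV'01 _
  have i3 : Integrable V ν := CRE_int ν _ hVc h01
  have i4 : Integrable V' ν := CRE_int ν _ hV'c hV'01
  have k2 : ∫ z in F, V (mkM Γ z) ≤ (∫ z in F, V' (mkM Γ z)) + (volume F).toReal * ε := by
    have e1 : ∫ z in F, (V' (mkM Γ z) + ε) = (∫ z in F, V' (mkM Γ z)) + (volume F).toReal * ε := by
      rw [integral_add i2 (integrable_const _), setIntegral_const, measureReal_def, smul_eq_mul]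
    rw [← e1]
    refine integral_mono i1 (i2.add (integrable_const _)) fun z => ?_
    have := (abs_le.1 (hV'a (mkM Γ z))).1
    show V (mkM Γ z) ≤ V' (mkM Γ z) + ε
    linarith
  have k3 : ∫ x, V' x ∂ν ≤ ∫ x, V x ∂ν + ν.real univ * ε := by
    have e1 : ∫ x, (V x + ε) ∂ν = ∫ x, V x ∂ν + ν.real univ * ε := by
      rw [integral_add i3 (integrable_const _), integral_const, smul_eq_mul]
    rw [← e1]
    refine integral_mono i4 (i3.add (integrable_const _)) fun x => ?_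
    have := (abs_le.1 (hV'a x)).2
    show V' x ≤ V x + ε
    linarith
  have k4 : (∫ z in F, V (mkM Γ z)) / (volume F).toReal ≤
      (∫ z in F, V' (mkM Γ z)) / (volume F).toReal + ε := by
    rcases (ENNReal.toReal_nonneg : 0 ≤ (volume F).toReal).eq_or_lt with h0 | h0
    · rw [← h0, div_zero, div_zero, zero_add]
      exact hε0.le
    · rw [div_le_iff₀ h0, add_mul, div_mul_cancel₀ _ h0.ne', mul_comm ε]
      exact k2
  have k5 := mul_le_mul_of_nonneg_left k4 hm0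
  have k6 : m * ε ≤ 1 * ε := mul_le_mul_of_nonneg_right hm1 hε0.le
  nlinarith

/-- the uniform part: from the nice domain `F₀` to an arbitrary fundamental domain `F`, and to Borel sets -/
theorem UP_fnm (h2 : EN.XTM_stmt) (h3 : EN.XFL_stmt) (h5 : QU.DOB_stmt) (Γ : Subgroup SL(2, ℝ)) (F F₀ : Set ℍ) (ν : Measure (MG Γ)) (hΓ : QU.SurfaceGroup Γ)
    (hF : IsFundamentalDomain Γ F (volume : Measure ℍ)) (hF₀ : QU.NiceDom Γ F₀) (hν : IsFiniteMeasure ν) (m : ℝ) (hm0 : 0 ≤ m)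
    (hCRE : ∀ V : MG Γ → ℝ, Continuous V → (∀ x, 0 ≤ V x ∧ V x ≤ 1) → m * ((∫ z in F₀, V (mkM Γ z)) / (volume F₀).toReal) ≤ ∫ x, V x ∂ν) :
    ENNReal.ofReal m • ((volume F)⁻¹ • ((volume : Measure ℍ).restrict F).map (mkM Γ)) ≤ ν := by
  obtain ⟨mc, mt, msc⟩ := h2 Γ hΓ
  obtain ⟨-, -, -, -, -, hmkM, homM, hsM, -, -, -, heqM⟩ := h3 Γ
  obtain ⟨hcount, hfd, hpos, hfin, hdom, -⟩ := h5 Γ F₀ hΓ hF₀
  obtain ⟨hvol, hint⟩ := hdom F hF
  have hmk : ∀ (γ : Γ) (z : ℍ), mkM Γ (γ • z) = mkM Γ z := fun γ z =>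
    ((heqM z (γ • z)).2 ⟨γ, rfl⟩).symm
  -- the image measures agree
  have hmap : ((volume : Measure ℍ).restrict F).map (mkM Γ) =
      ((volume : Measure ℍ).restrict F₀).map (mkM Γ) := by
    refine Measure.ext fun A hA => ?_
    rw [Measure.map_apply hmkM.measurable hA, Measure.map_apply hmkM.measurable hA]
    have hB : MeasurableSet (mkM Γ ⁻¹' A) := hmkM.measurable hA
    rw [Measure.restrict_apply hB, Measure.restrict_apply hB]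
    have h := hint ((mkM Γ ⁻¹' A).indicator (fun _ => (1 : ℝ))) (fun γ z => by
      have : (γ • z ∈ mkM Γ ⁻¹' A) ↔ (z ∈ mkM Γ ⁻¹' A) := by
        rw [mem_preimage, mem_preimage, hmk γ z]
      by_cases hz : z ∈ mkM Γ ⁻¹' A
      · rw [indicator_of_mem hz, indicator_of_mem (this.2 hz)]
      · rw [indicator_of_notMem hz, indicator_of_notMem (fun h => hz (this.1 h))])
    rw [integral_indicator hB, integral_indicator hB, Measure.restrict_restrict hB,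
      Measure.restrict_restrict hB] at h
    simp only [integral_const, smul_eq_mul, mul_one, Measure.real, Measure.restrict_apply_univ] at h
    refine (ENNReal.toReal_eq_toReal_iff' ?_ ?_).1 h
    · exact ne_top_of_le_ne_top (by rw [hvol]; exact hfin.ne) (measure_mono inter_subset_right)
    · exact ne_top_of_le_ne_top hfin.ne (measure_mono inter_subset_right)
  rw [hmap, hvol]
  set lam : Measure (MG Γ) := (volume F₀)⁻¹ • ((volume : Measure ℍ).restrict F₀).map (mkM Γ) with hlam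
  have : IsFiniteMeasure ((volume : Measure ℍ).restrict F₀) := ⟨by rw [Measure.restrict_apply_univ]; exact hfin⟩
  have hlf : IsFiniteMeasure lam := by
    refine ⟨?_⟩
    rw [hlam, Measure.smul_apply, smul_eq_mul]
    exact ENNReal.mul_lt_top (ENNReal.inv_lt_top.2 hpos) (measure_lt_top _ _)
  exact FNM_le lam ν m hm0 (fun V hV h01 => by
    have h := hCRE V hV h01
    have e : ∫ x, V x ∂lam = (∫ z in F₀, V (mkM Γ z)) / (volume F₀).toReal := by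
      rw [hlam, integral_smul_measure, integral_map hmkM.aemeasurable hV.aestronglyMeasurable,
        ENNReal.toReal_inv, smul_eq_mul, div_eq_inv_mul]
    rw [e]
    exact h)

/-- the lift: the property `GP` and the uniform part -/
theorem UP_lift (hHMG : HMG_stmt) (hMU : MS.MU_stmt) (hSTB : MS.STB_stmt) (hXFL : EN.XFL_stmt) (hXTM : EN.XTM_stmt)
    (hDOM : QU.DOM_stmt) (hDOB : QU.DOB_stmt) (hMS1 : MS.MS1_stmt) (Γ : Subgroup SL(2, ℝ)) (F : Set ℍ) (r : ℕ → ℝ) (φ : ℕ → ℍ → ℂ) (ν : Measure (MG Γ))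
    (hΓ : QU.SurfaceGroup Γ) (hF : IsFundamentalDomain Γ F (volume : Measure ℍ)) (hr : Tendsto r atTop atTop) (hφ : ∀ k, Eig Γ (r k) (φ k))
    (hn : ∀ k, ∫ z in F, ‖φ k z‖ ^ 2 = 1) (hfin : IsFiniteMeasure ν)
    (hν : ∀ V : MG Γ → ℝ, Continuous V → Tendsto (fun k => ∫ z in F, V (mkM Γ z) * ‖φ k z‖ ^ 2) atTop (𝓝 (∫ x, V x ∂ν))) :
    ∃ μ : Measure (XG Γ), IsProbabilityMeasure μ ∧ (∀ t, μ.map (fl Γ t) = μ) ∧ μ.map (pr Γ) = ν ∧ (∃ K : ℝ, 1 ≤ K ∧ GP Γ μ K) ∧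
      ∀ m : ℝ, 0 ≤ m → m ≤ 1 → (∀ a : ℝ, 0 < a → CV Γ μ m a) →
        ENNReal.ofReal m • ((volume F)⁻¹ • ((volume : Measure ℍ).restrict F).map (mkM Γ)) ≤ ν := by
  obtain ⟨F₀, hF₀⟩ := hDOM Γ hΓ
  obtain ⟨-, -, -, -, hdob, -⟩ := hDOB Γ F₀ hΓ hF₀
  have hdom := (hdob F hF).2
  obtain ⟨-, hprc, -, -, hsur, -, -, -, -, -, -, hmkM⟩ := hXFL Γ
  obtain ⟨-, -, -, -, -, hex⟩ := hSTB
  obtain ⟨β, hβ⟩ := (hex (1 / 4) (by norm_num)).2
  obtain ⟨α, hα'⟩ := (hex (1 / 8) (by norm_num)).1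
  have hinv : ∀ k (γ : Γ) z, ‖φ k (γ • z)‖ ^ 2 = ‖φ k z‖ ^ 2 := by
    intro k γ z
    rw [(hφ k).2.1 γ z]
  have hn0 : ∀ k, nn F₀ (φ k) = 1 := by
    intro k
    unfold nn
    rw [← hdom _ (hinv k)]
    exact hn k
  have hν0 : ∀ V : MG Γ → ℝ, Continuous V →
      Tendsto (fun k => ∫ z in F₀, V (mkM Γ z) * ‖φ k z‖ ^ 2) atTop (𝓝 (∫ x, V x ∂ν)) := by
    intro V hV
    refine (hν V hV).congr fun k => ?_
    refine hdom _ fun γ z => ?_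
    rw [hinv k γ z, (hmkM (γ • z) z).2 ⟨γ⁻¹, by rw [inv_smul_smul]⟩]
  obtain ⟨μ, hμ, hflow, hmap, hlow⟩ := hMU Γ F₀ β α r φ ν hΓ hF₀ hβ hα' hr hφ hn0 hfin hν0
  obtain ⟨K, hK, hHM⟩ := hHMG Γ F₀ β α hΓ hF₀ hβ hα'
  refine ⟨μ, hμ, hflow, hmap, ⟨K, hK, ?_⟩, ?_⟩
  · intro ε C3 δ L0 εc B' l0 n Ψ Ψa Ψn Ψl Ψ' Ψa' Ψn' Ψl' hε hε1 hC3 hδ hδε hL0 hεc hl0 hS hS' h01 h01' hn1 hn2 hn3 hn4 hLF
    obtain ⟨r2, hr2, hfinal⟩ := hHM ε C3 δ L0 εc B' l0 n Ψ Ψa Ψn Ψl Ψ' Ψa' Ψn' Ψl' hε hε1 hC3 hδ hδε hL0 hεc hl0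
      hS hS' h01 h01' hn1 hn2 hn3 hn4 hLF
    have hI := hS.i0
    have hI' := hS'.i0
    have hc := DU1_lift_cont Γ Ψ hI
    have hc' := DU1_lift_cont Γ Ψ' hI'
    have g01 : ∀ x, 0 ≤ DU1_lift Γ Ψ hI x ∧ DU1_lift Γ Ψ hI x ≤ 1 := by
      intro x
      obtain ⟨g, rfl⟩ := hsur x
      exact h01 g
    have g01' : ∀ x, 0 ≤ DU1_lift Γ Ψ' hI' x ∧ DU1_lift Γ Ψ' hI' x ≤ 1 := by
      intro x
      obtain ⟨g, rfl⟩ := hsur x
      exact h01' g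
    have hi := HLG_low Γ hsur μ hμ Ψ hI h01
    have hi' := HLG_low Γ hsur μ hμ Ψ' hI' h01'
    set m : ℝ := μ.real (one Γ Ψ) + μ.real (one Γ Ψ') with hm
    have hm0 : 0 ≤ m := add_nonneg measureReal_nonneg measureReal_nonneg
    have hm2 : m ≤ 2 := by
      have h1 : μ.real (one Γ Ψ) ≤ 1 := measureReal_le_one
      have h2 : μ.real (one Γ Ψ') ≤ 1 := measureReal_le_one
      linarith
    have hsum : ∫ x, (DU1_lift Γ Ψ hI x + DU1_lift Γ Ψ' hI' x) ∂μ =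
        ∫ x, DU1_lift Γ Ψ hI x ∂μ + ∫ x, DU1_lift Γ Ψ' hI' x ∂μ :=
      integral_add (DU1_int Γ μ hμ _ hc g01) (DU1_int Γ μ hμ _ hc' g01')
    have hb : m - 4 * δ < ∫ x, (DU1_lift Γ Ψ hI x + DU1_lift Γ Ψ' hI' x) ∂μ := by
      rw [hsum]
      linarith
    have hfr := hlow (fun x => DU1_lift Γ Ψ hI x + DU1_lift Γ Ψ' hI' x) (m - 4 * δ) (hc.add hc') hb
    have hev : ∀ᶠ k in atTop, r2 ≤ r k := hr.eventually (eventually_ge_atTop r2)
    obtain ⟨k, ⟨t, ht1, ht2, ht3⟩, hk⟩ := (hfr.and_eventually hev).exists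
    refine hfinal (r k) m t (φ k) hk ?_ (hn0 k) hm0 hm2 ht1 ht2 ht3
    exact ⟨(hφ k).1.of_le (WithTop.coe_le_coe.2 (le_top : (2 : ℕ∞) ≤ ⊤)), (hφ k).2.1, fun z => by rw [(hφ k).2.2 z]⟩
  · intro m hm0 hm1 hCV
    exact UP_fnm hXTM hXFL hDOB Γ F F₀ ν hΓ hF hF₀ hfin m hm0
      (UP_cre hMS1 Γ F₀ r φ ν hΓ hF₀ hr hφ hn0 hfin hν0 β α hβ hα' μ hμ hlow m hm0 hm1 hCV)

end Pool.Agent.IR
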