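import Pool.Agent.helper93.CR.All
import Pool.Agent.helper47.HF.PVG
import Pool.Agent.helper52.IR.IRM
import Pool.Agent.helper15.IR.PAV
import Pool.Agent.helper2.IR.CTF
import Pool.Agent.helper20.IR.EQC
import Pool.Agent.helper3.IR.NUM
import Pool.Agent.helper31.IR.CTB
import Pool.Agent.helper33.IR.ALM
import Pool.Agent.helper34.IR.FWD
import Pool.Agent.helper39.IR.BK1
import Pool.Agent.helper39.IR.COV
import Pool.Agent.helper43.IR.LOB
import Pool.Agent.helper49.IR.FLI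
import Pool.Agent.helper49.IR.MEN
import Pool.Agent.helper51.IR.YAV
import Pool.Agent.helper53.IR.BDS
import Pool.Agent.helper57.IR.CEL
import Pool.Agent.helper63.IR.LCK
import Pool.Agent.helper67.IR.YVO
import Pool.Agent.helper71.IR.NET
import Pool.Agent.helper72.IR.BLK
import Pool.Agent.helper72.IR.CNT
import Pool.Agent.helper73.IR.CT1
import Pool.Agent.helper79.IR.LOC
import Pool.Agent.helper79.IR.TRF
import Pool.Agent.helper83.IR.HLH
import Pool.Agent.helper83.IR.HMG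
import Pool.Agent.helper85.IR.SFP
import Pool.Agent.helper89.IR.NPR
import Pool.Agent.helper9.IR.BK2
import Pool.Agent.helper92.IR.HLG
import Pool.Agent.helper95.IR.GEO
import Pool.Agent.helper98.IR.LFX
import Pool.Agent.helper25.IR.UP

/-!
# MP_07c750, project IR (improved reflection): assembly of all rows
-/

set_option autoImplicit false

open scoped MatrixGroups ContDiff Topology UpperHalfPlane ComplexConjugate ENNReal
open UpperHalfPlane MeasureTheory Filter Set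

namespace Pool.Agent.IR

open Pool.Agent.RS
open Pool.Agent.EN (XG MG mkX mkM fl pr)
open Pool.Agent.ER (Low)

theorem A_PVG : HV.PVG_stmt := HV.PVG_proof MS.A_STB MS.A_NM3 MS.A_EQ4 MS.A_INW HV.A_AS4 HV.A_OPB RS.A_CV1 RS.A_FL0 RS.A_GFD RS.A_GBD RS.A_GLC
theorem A_BLK : BLK_stmt := BLK_proof
theorem A_PAV : PAV_stmt := PAV_proof
theorem A_NPR : NPR_stmt := NPR_proof
theorem A_CEL : CEL_stmt := CEL_proof A_PAV A_NPR
theorem A_YAV : YAV_stmt := YAV_proof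
theorem A_ALM : ALM_stmt := ALM_proof A_CEL A_YAV
theorem A_NET : NET_stmt := NET_proof QU.A_DOB
theorem A_CTB : CTB_stmt := CTB_proof RS.A_GLC
theorem A_CTF : CTF_stmt := CTF_proof
theorem A_YVO : YVO_stmt := YVO_proof A_CTF RS.A_GLC
theorem A_CNT : CNT_stmt := CNT_proof A_CTB RS.A_GLC
theorem A_GEO : GEO_stmt := GEO_proof RS.A_GLC
theorem A_TRF : TRF_stmt := TRF_proof
theorem A_BDS : BDS_stmt := BDS_proof A_NET A_CNT A_ALM RS.A_GLC
theorem A_LFX : LFX_stmt := LFX_proof A_BDS A_GEO A_TRF A_BLK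
theorem A_CT1 : CT1_stmt := CT1_proof A_CTB
theorem A_FLI : FLI_stmt := FLI_proof EN.A_XFL
theorem A_COV : COV_stmt := COV_proof ER.A_LDE A_FLI LL.A_LOC MS.A_SML MS.A_CYB EN.A_PAR EN.A_XFL EN.A_XTX EN.A_XNB
theorem A_LOB : LOB_stmt := LOB_proof A_FLI EN.A_XFL EN.A_XTX
theorem A_SFP : SFP_stmt := SFP_proof RS.A_GLC
theorem A_FWD : FWD_stmt := FWD_proof MS.A_BXM A_SFP A_COV A_FLI A_YVO EN.A_XFL
theorem A_BK1 : BK1_stmt := BK1_proof MS.A_BXM A_COV A_CT1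
theorem A_BK2 : BK2_stmt := BK2_proof MS.A_BXM A_SFP A_COV A_FLI A_LOB A_LFX EN.A_XFL
theorem A_LCK : LCK_stmt := LCK_proof
theorem A_HMG : HMG_stmt := HMG_proof A_PVG A_LCK RS.A_GLC
theorem A_HLG : HLG_stmt := HLG_proof A_HMG MS.A_MU MS.A_STB EN.A_XFL QU.A_DOM QU.A_DOB
theorem A_NUM : NUM_stmt := NUM_proof
theorem A_LOC : LOC_stmt := LOC_proof EN.A_XFL EN.A_XTX
theorem A_MEN : MEN_stmt := MEN_proof
theorem A_HLH : HLH_stmt := HLH_proof MS.A_BXM A_CT1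
theorem A_EQC : EQC_stmt := EQC_proof A_MEN
theorem A_IRM : IRM_stmt := IRM_proof RS.A_GLC A_HLG A_FWD A_BK1 A_BK2 A_SFP A_NUM

/-- real version of an inequality between masses -/
theorem all_enn {X : Type} [MeasurableSpace X] (μ : Measure X) [IsProbabilityMeasure μ] (A B : Set X)
    (h : μ.real A + μ.real B ≤ 1) : μ A + μ B ≤ 1 := by
  rw [← ofReal_measureReal (measure_ne_top μ A), ← ofReal_measureReal (measure_ne_top μ B),
    ← ENNReal.ofReal_add measureReal_nonneg measureReal_nonneg]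
  exact ENNReal.ofReal_le_one.2 h

theorem all_half {X : Type} [MeasurableSpace X] (μ : Measure X) [IsProbabilityMeasure μ] (A : Set X)
    (h : μ.real A = 1 / 2) : μ A = 1 / 2 := by
  rw [← ofReal_measureReal (measure_ne_top μ A), h, ENNReal.ofReal_div_of_pos two_pos]
  simp

theorem all_mono (Γ : Subgroup SL(2, ℝ)) (μ : Measure (XG Γ)) (a b : ℝ) (hab : a ≤ b) : Low Γ μ a ⊆ Low Γ μ b := by
  intro x hx δ hδ ε hε
  refine (hx δ hδ ε hε).mono fun n hn => le_trans (Real.exp_le_exp.2 ?_) hn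
  have hn0 : (0 : ℝ) ≤ n := Nat.cast_nonneg n
  nlinarith

/-- **The improved reflection inequality**, the mean entropy, the uniform part and the equality case, for the same lift. -/
theorem improved (Γ : Subgroup SL(2, ℝ)) (F : Set ℍ) (r : ℕ → ℝ) (φ : ℕ → ℍ → ℂ) (ν : Measure (MG Γ)) (hΓ : QU.SurfaceGroup Γ)
    (hF : IsFundamentalDomain Γ F (volume : Measure ℍ)) (hr : Tendsto r atTop atTop) (hφ : ∀ k, Eig Γ (r k) (φ k)) (hn : ∀ k, ∫ z in F, ‖φ k z‖ ^ 2 = 1)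
    (hfin : IsFiniteMeasure ν)
    (hν : ∀ V : MG Γ → ℝ, Continuous V → Tendsto (fun k => ∫ z in F, V (mkM Γ z) * ‖φ k z‖ ^ 2) atTop (𝓝 (∫ x, V x ∂ν))) :
    ∃ μ : Measure (XG Γ), IsProbabilityMeasure μ ∧ (∀ t, μ.map (fl Γ t) = μ) ∧ μ.map (pr Γ) = ν ∧ (∀ a, MeasurableSet (Low Γ μ a)) ∧ Measurable (loc Γ μ) ∧
      (∀ a : ℝ, 1 / 2 ≤ a → a < 1 → μ (Low Γ μ a) + μ (Low Γ μ ((1 - a) * (1 + (2 * a - 1) / 200))) ≤ 1) ∧
      (∀ A : Set (MG Γ), MeasurableSet A → μ (Low Γ μ 0) * (volume (F ∩ {z : ℍ | mkM Γ z ∈ A}) / volume F) ≤ ν A) ∧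
      1 / 2 + 1 / 200 * ∫ x, max 0 ((2 * loc Γ μ x - 1) * (1 - loc Γ μ x)) ∂μ ≤ ∫ x, loc Γ μ x ∂μ ∧
      (∫ x, loc Γ μ x ∂μ ≤ 1 / 2 → μ (Low Γ μ 0) = 1 / 2 ∧ μ {x | ∀ a : ℝ, a < 1 → x ∉ Low Γ μ a} = 1 / 2) := by
  obtain ⟨μ, hμ, hfl, hmap, ⟨K, hK, H⟩, HU⟩ := UP_lift A_HMG MS.A_MU MS.A_STB EN.A_XFL EN.A_XTM QU.A_DOM QU.A_DOB MS.A_MS1 Γ F r φ ν hΓ hF hr hφ hn hfin hν
  have H2 : ∀ h : ℝ, 1 / 2 < h → h < 1 → μ.real (Low Γ μ h) + μ.real (Low Γ μ ((1 - h) * (1 + (2 * h - 1) / 200))) ≤ 1 :=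
    IRM_core RS.A_GLC A_FWD A_BK1 A_BK2 A_SFP A_NUM Γ μ K hΓ hμ hfl hK H
  obtain ⟨a0, ha0, H0⟩ := A_HLH Γ μ K hΓ hμ hK H
  have key : μ.real (Low Γ μ (1 / 2)) + μ.real (Low Γ μ (1 / 2)) ≤ 1 := by
    have e : (1 : ℝ) - 1 / 2 = 1 / 2 := by norm_num
    obtain ⟨a1, ha1, H1⟩ := CR.A_HCW Γ μ (1 / 2) (Low Γ μ (1 / 2)) (Low Γ μ (1 / 2)) hΓ hμ hfl (by norm_num) le_rfl
      (ER.A_LDE Γ μ (1 / 2) hΓ hμ hfl (by norm_num)) (by rw [e]; exact ER.A_LDE Γ μ (1 / 2) hΓ hμ hfl (by norm_num))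
    exact H0 (min a0 a1) (lt_min ha0 ha1) (min_le_left _ _) (μ.real (Low Γ μ (1 / 2))) (μ.real (Low Γ μ (1 / 2))) measureReal_nonneg
      measureReal_le_one measureReal_nonneg measureReal_le_one (H1 (min a0 a1) (lt_min ha0 ha1) (min_le_right _ _))
  obtain ⟨hm, h01, hle⟩ := A_LOC Γ μ hΓ hμ
  have H3 : ∀ h : ℝ, 1 / 2 < h → h < 1 → μ.real {x | loc Γ μ x ≤ h} + μ.real {x | loc Γ μ x ≤ (1 - h) * (1 + (2 * h - 1) / 200)} ≤ 1 := by
    intro h h1 h2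
    have h3 : 0 ≤ (1 - h) * (1 + (2 * h - 1) / 200) := mul_nonneg (by linarith) (by linarith)
    have h4 : (1 - h) * (1 + (2 * h - 1) / 200) < 1 := by nlinarith
    rw [hle h (by linarith) h2, hle _ h3 h4]
    exact H2 h h1 h2
  refine ⟨μ, hμ, hfl, hmap, fun a => ER.Low_meas Γ hΓ μ hμ a, hm, ?_, ?_, ?_, ?_⟩
  · intro a ha ha1
    rcases eq_or_lt_of_le ha with h | h
    · rw [← h]
      have e : (1 - 1 / 2 : ℝ) * (1 + (2 * (1 / 2) - 1) / 200) = 1 / 2 := by norm_num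
      rw [e]
      exact all_enn μ _ _ key
    · exact all_enn μ _ _ (H2 a h ha1)
  · intro A hA
    have hCV : ∀ a : ℝ, 0 < a → MS.CV Γ μ (μ.real (Low Γ μ 0)) a := by
      intro a ha δ hδ
      obtain ⟨n0, hn0⟩ := ER.A_EZR Γ μ 0 (Low Γ μ 0) hΓ hμ hfl le_rfl (ER.A_LDE Γ μ 0 hΓ hμ hfl le_rfl) a ha δ hδ
      refine ⟨n0, fun n hn => ?_⟩
      obtain ⟨B, hB1, hB2⟩ := hn0 n hn
      rw [zero_add] at hB1
      exact ⟨B, hB1, hB2⟩
    have h4 := HU (μ.real (Low Γ μ 0)) measureReal_nonneg measureReal_le_one hCV A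
    have hmm : Measurable (mkM Γ) := (EN.A_XFL Γ).2.2.2.2.2.1.measurable
    rw [Measure.smul_apply, Measure.smul_apply, Measure.map_apply hmm hA,
      Measure.restrict_apply (hmm hA), ofReal_measureReal (measure_ne_top μ _), smul_eq_mul, smul_eq_mul] at h4
    rw [ENNReal.div_eq_inv_mul, Set.inter_comm]
    exact h4
  · exact A_MEN (XG Γ) μ (loc Γ μ) hμ hm h01 H3
  · intro hint
    obtain ⟨e1, e2⟩ := A_EQC (XG Γ) μ (loc Γ μ) hμ hm h01 H3 (by
      rw [hle (1 / 2) (by norm_num) (by norm_num)]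
      linarith) hint
    have s1 : {x | loc Γ μ x = 0} = Low Γ μ 0 := by
      rw [← hle 0 le_rfl one_pos]
      ext x
      exact ⟨fun h => le_of_eq h, fun h => le_antisymm h (h01 x).1⟩
    have s2 : {x | loc Γ μ x = 1} = {x | ∀ a : ℝ, a < 1 → x ∉ Low Γ μ a} := by
      ext x
      constructor
      · intro h a ha hx
        have h5 : x ∈ {x | loc Γ μ x ≤ max a 0} := by
          rw [hle (max a 0) (le_max_right _ _) (max_lt ha one_pos)]
          exact all_mono Γ μ a (max a 0) (le_max_left _ _) hx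
        have h6 : loc Γ μ x ≤ max a 0 := h5
        have h7 : loc Γ μ x = 1 := h
        rw [h7] at h6
        exact absurd h6 (not_le_of_gt (max_lt ha one_pos))
      · intro h
        by_contra hne
        have h5 : loc Γ μ x < 1 := lt_of_le_of_ne (h01 x).2 hne
        have h6 : x ∈ {y | loc Γ μ y ≤ loc Γ μ x} := le_refl (loc Γ μ x)
        rw [hle _ (h01 x).1 h5] at h6
        exact h _ h5 h6
    rw [s1] at e1
    rw [s2] at e2
    exact ⟨all_half μ _ e1, all_half μ _ e2⟩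

end Pool.Agent.IR
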