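import Pool.Agent.helper25.IR.Core
import Pool.Agent.helper52.T1.SpecF

/-!
# MP_07c750, project T1: the final theorem from `FN2_stmt`

`t1_final`: with absolute constants `c, ρ0 > 0`, for every closed hyperbolic surface and every quantum limit, the same lift `μ` as in the improved reflection inequality.
-/

set_option autoImplicit false

open scoped MatrixGroups ContDiff Topology UpperHalfPlane ENNReal NNReal
open UpperHalfPlane MeasureTheory Filter Set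

namespace Pool.Agent.IR

open Pool.Agent.RS
open Pool.Agent.MS (bq BB BA SF pf DU1_lift DU1_lift_mk DU1_lift_cont DU1_int CV CRE_int CRE_lim CRE_set FNM_le)
open Pool.Agent.EN (XG MG mkX mkM fl pr)
open Pool.Agent.ER (Low)

/-- the lift, for given profiles: a nice domain `F₀`, the property `MP` and the uniform part -/
theorem core_lift (β α : ℝ → ℝ) (hβ : BB (1 / 4) β) (hα' : BA (1 / 8) α) (Γ : Subgroup SL(2, ℝ)) (F : Set ℍ) (r : ℕ → ℝ) (φ : ℕ → ℍ → ℂ) (ν : Measure (MG Γ))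
    (hΓ : QU.SurfaceGroup Γ) (hF : IsFundamentalDomain Γ F (volume : Measure ℍ)) (hr : Tendsto r atTop atTop) (hφ : ∀ k, Eig Γ (r k) (φ k))
    (hn : ∀ k, ∫ z in F, ‖φ k z‖ ^ 2 = 1) (hfin : IsFiniteMeasure ν)
    (hν : ∀ V : MG Γ → ℝ, Continuous V → Tendsto (fun k => ∫ z in F, V (mkM Γ z) * ‖φ k z‖ ^ 2) atTop (𝓝 (∫ x, V x ∂ν))) :
    ∃ F₀ : Set ℍ, QU.NiceDom Γ F₀ ∧ (∀ k, nn F₀ (φ k) = 1) ∧ ∃ μ : Measure (XG Γ), IsProbabilityMeasure μ ∧ (∀ t, μ.map (fl Γ t) = μ) ∧ μ.map (pr Γ) = ν ∧ MP Γ F₀ β α r φ μ ∧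
      ∀ m : ℝ, 0 ≤ m → m ≤ 1 → (∀ a : ℝ, 0 < a → CV Γ μ m a) →
        ENNReal.ofReal m • ((volume F)⁻¹ • ((volume : Measure ℍ).restrict F).map (mkM Γ)) ≤ ν := by
  obtain ⟨F₀, hF₀⟩ := QU.A_DOM Γ hΓ
  obtain ⟨-, -, -, -, hdob, -⟩ := QU.A_DOB Γ F₀ hΓ hF₀
  have hdom := (hdob F hF).2
  obtain ⟨-, hprc, -, -, hsur, -, -, -, -, -, -, hmkM⟩ := EN.A_XFL Γ
  have hinv : ∀ k (γ : Γ) z, ‖φ k (γ • z)‖ ^ 2 = ‖φ k z‖ ^ 2 := by
    intro k γ z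
    rw [(hφ k).2.1 γ z]
  have hn0 : ∀ k, nn F₀ (φ k) = 1 := by
    intro k
    unfold nn
    rw [← hdom _ (hinv k)]
    exact hn k
  have hν0 : ∀ V : MG Γ → ℝ, Continuous V →
      Tendsto (fun k => ∫ z in F₀, V (mkM Γ z) * ‖φ k z‖ ^ 2) atTop (𝓝 (∫ x, V x ∂ν)) := by
    intro V hV
    refine (hν V hV).congr fun k => ?_
    refine hdom _ fun γ z => ?_
    rw [hinv k γ z, (hmkM (γ • z) z).2 ⟨γ⁻¹, by rw [inv_smul_smul]⟩]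
  obtain ⟨μ, hμ, hflow, hmap, hlow⟩ := MS.A_MU Γ F₀ β α r φ ν hΓ hF₀ hβ hα' hr hφ hn0 hfin hν0
  refine ⟨F₀, hF₀, hn0, μ, hμ, hflow, hmap, hlow, ?_⟩
  intro m hm0 hm1 hCV
  exact UP_fnm EN.A_XTM EN.A_XFL QU.A_DOB Γ F F₀ ν hΓ hF hF₀ hfin m hm0
    (UP_cre MS.A_MS1 Γ F₀ r φ ν hΓ hF₀ hr hφ hn0 hfin hν0 β α hβ hα' μ hμ hlow m hm0 hm1 hCV)

/-- **T1, final form**: absolute `c, ρ0 > 0`; for every quantum limit there is a lift with the improved reflection inequality, the uniform part, `μ(entropy ≤ ρ0) ≤ 1/2 - c` and mean entropy `> 1/2`. -/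
theorem t1_final (hFN2 : T1.FN2_stmt) : ∃ c ρ0 : ℝ, 0 < c ∧ 0 < ρ0 ∧ ∀ (Γ : Subgroup SL(2, ℝ)) (F : Set ℍ) (r : ℕ → ℝ) (φ : ℕ → ℍ → ℂ) (ν : Measure (MG Γ)), QU.SurfaceGroup Γ →
    IsFundamentalDomain Γ F (volume : Measure ℍ) → Tendsto r atTop atTop → (∀ k, Eig Γ (r k) (φ k)) → (∀ k, ∫ z in F, ‖φ k z‖ ^ 2 = 1) → IsFiniteMeasure ν →
    (∀ V : MG Γ → ℝ, Continuous V → Tendsto (fun k => ∫ z in F, V (mkM Γ z) * ‖φ k z‖ ^ 2) atTop (𝓝 (∫ x, V x ∂ν))) →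
    ∃ μ : Measure (XG Γ), IsProbabilityMeasure μ ∧ (∀ t, μ.map (fl Γ t) = μ) ∧ μ.map (pr Γ) = ν ∧ (∀ a, MeasurableSet (Low Γ μ a)) ∧ Measurable (loc Γ μ) ∧
      μ (Low Γ μ ρ0) ≤ ENNReal.ofReal (1 / 2 - c) ∧ 1 / 2 < ∫ x, loc Γ μ x ∂μ ∧
      (∀ a : ℝ, 1 / 2 ≤ a → a < 1 → μ (Low Γ μ a) + μ (Low Γ μ ((1 - a) * (1 + (2 * a - 1) / 200))) ≤ 1) ∧
      (∀ A : Set (MG Γ), MeasurableSet A → μ (Low Γ μ 0) * (volume (F ∩ {z : ℍ | mkM Γ z ∈ A}) / volume F) ≤ ν A) ∧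
      1 / 2 + 1 / 200 * ∫ x, max 0 ((2 * loc Γ μ x - 1) * (1 - loc Γ μ x)) ∂μ ≤ ∫ x, loc Γ μ x ∂μ := by
  obtain ⟨-, -, -, -, -, hex⟩ := MS.A_STB
  obtain ⟨β, hβ⟩ := (hex (1 / 4) (by norm_num)).2
  obtain ⟨α, hα'⟩ := (hex (1 / 8) (by norm_num)).1
  obtain ⟨c, ρ0, hc, hρ, HFN⟩ := hFN2 β α hβ hα'
  refine ⟨c, ρ0, hc, hρ, ?_⟩
  intro Γ F r φ ν hΓ hF hr hφ hn hfin hν
  obtain ⟨F₀, hF₀, hn0, μ, hμ, hfl, hmap, hMP, HU⟩ := core_lift β α hβ hα' Γ F r φ ν hΓ hF hr hφ hn hfin hν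
  have H2 : ∀ a : ℝ, 1 / 2 ≤ a → a < 1 → μ (Low Γ μ a) + μ (Low Γ μ ((1 - a) * (1 + (2 * a - 1) / 200))) ≤ 1 :=
    fun a ha ha1 => core Γ F₀ β α r φ μ hΓ hF₀ hβ hα' hr hφ hn0 hμ hfl hMP a ha ha1
  obtain ⟨hm, h01, hle, hmean⟩ := core_mean Γ μ hΓ hμ H2
  have h5 : μ.real (Low Γ μ ρ0) ≤ 1 / 2 - c := HFN Γ F₀ r φ μ hΓ hF₀ hr hφ hn0 hμ hfl hMP
  refine ⟨μ, hμ, hfl, hmap, fun a => ER.Low_meas Γ hΓ μ hμ a, hm, ?_, ?_, H2, ?_, hmean⟩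
  · rw [← ofReal_measureReal (measure_ne_top μ _)]
    exact ENNReal.ofReal_le_ofReal h5
  · by_contra hcon
    have hint : ∫ x, loc Γ μ x ∂μ ≤ 1 / 2 := not_lt.1 hcon
    have H3 : ∀ h : ℝ, 1 / 2 < h → h < 1 → μ.real {x | loc Γ μ x ≤ h} + μ.real {x | loc Γ μ x ≤ (1 - h) * (1 + (2 * h - 1) / 200)} ≤ 1 := by
      intro h h1 h2
      have h3 : 0 ≤ (1 - h) * (1 + (2 * h - 1) / 200) := mul_nonneg (by linarith) (by linarith)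
      have h4 : (1 - h) * (1 + (2 * h - 1) / 200) < 1 := by nlinarith
      rw [hle h (by linarith) h2, hle _ h3 h4]
      have h6 := ENNReal.toReal_mono ENNReal.one_ne_top (H2 h h1.le h2)
      rw [ENNReal.toReal_add (measure_ne_top μ _) (measure_ne_top μ _), ENNReal.toReal_one] at h6
      exact h6
    have key : μ.real (Low Γ μ (1 / 2)) + μ.real (Low Γ μ (1 / 2)) ≤ 1 := by
      have h7 := H2 (1 / 2) le_rfl (by norm_num)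
      have e : (1 - 1 / 2 : ℝ) * (1 + (2 * (1 / 2) - 1) / 200) = 1 / 2 := by norm_num
      rw [e] at h7
      have h6 := ENNReal.toReal_mono ENNReal.one_ne_top h7
      rw [ENNReal.toReal_add (measure_ne_top μ _) (measure_ne_top μ _), ENNReal.toReal_one] at h6
      exact h6
    obtain ⟨e1, -⟩ := A_EQC (XG Γ) μ (loc Γ μ) hμ hm h01 H3 (by
      rw [hle (1 / 2) (by norm_num) (by norm_num)]
      linarith) hint
    have s1 : {x | loc Γ μ x = 0} = Low Γ μ 0 := by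
      rw [← hle 0 le_rfl one_pos]
      ext x
      exact ⟨fun h => le_of_eq h, fun h => le_antisymm h (h01 x).1⟩
    rw [s1] at e1
    have h8 : μ.real (Low Γ μ 0) ≤ μ.real (Low Γ μ ρ0) := measureReal_mono (all_mono Γ μ 0 ρ0 hρ.le)
    linarith
  · intro A hA
    have hCV : ∀ a : ℝ, 0 < a → MS.CV Γ μ (μ.real (Low Γ μ 0)) a := by
      intro a ha δ hδ
      obtain ⟨n0, hn0'⟩ := ER.A_EZR Γ μ 0 (Low Γ μ 0) hΓ hμ hfl le_rfl (ER.A_LDE Γ μ 0 hΓ hμ hfl le_rfl) a ha δ hδ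
      refine ⟨n0, fun n hn => ?_⟩
      obtain ⟨B, hB1, hB2⟩ := hn0' n hn
      rw [zero_add] at hB1
      exact ⟨B, hB1, hB2⟩
    have h4 := HU (μ.real (Low Γ μ 0)) measureReal_nonneg measureReal_le_one hCV A
    have hmm : Measurable (mkM Γ) := (EN.A_XFL Γ).2.2.2.2.2.1.measurable
    rw [Measure.smul_apply, Measure.smul_apply, Measure.map_apply hmm hA,
      Measure.restrict_apply (hmm hA), ofReal_measureReal (measure_ne_top μ _), smul_eq_mul, smul_eq_mul] at h4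
    rw [ENNReal.div_eq_inv_mul, Set.inter_comm]
    exact h4

end Pool.Agent.IR
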