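import Pool.Agent.helper25.IR.All

/-!
# MP_07c750, project IR: the core theorem for an arbitrary measure with the property `MP` (the row MU)

`MP Γ F β α r φ μ` (`Pool/Agent/helper25/IR/UP.lean`): for every continuous `Ψ` and `b < ∫ Ψ dμ` there are infinitely many `k` and some `t`, `√(log r_k) ≤ t ≤ log r_k - √(log r_k)`, with `b ‖packets‖² < ∫ Ψ(g a_t) ‖pf β α (r_k) (φ_k) g‖²`.
Such a `μ` exists (`core_exists`), and every flow invariant probability measure `μ` with `MP` satisfies `GP` (`core_gp`) and the improved reflection inequality (`core`).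
-/

set_option autoImplicit false

open scoped MatrixGroups ContDiff Topology UpperHalfPlane ENNReal NNReal
open UpperHalfPlane MeasureTheory Filter Set

namespace Pool.Agent.IR

open Pool.Agent.RS
open Pool.Agent.MS (bq BB BA SF pf DU1_lift DU1_lift_mk DU1_lift_cont DU1_int CV CRE_int CRE_lim CRE_set FNM_le)
open Pool.Agent.EN (XG MG mkX mkM fl pr)
open Pool.Agent.ER (Low)

/-- `MP` implies `GP` -/
theorem core_gp (Γ : Subgroup SL(2, ℝ)) (F₀ : Set ℍ) (β α : ℝ → ℝ) (hΓ : QU.SurfaceGroup Γ) (hF₀ : QU.NiceDom Γ F₀) (hβ : BB (1 / 4) β) (hα' : BA (1 / 8) α) :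
    ∃ K : ℝ, 1 ≤ K ∧ ∀ (r : ℕ → ℝ) (φ : ℕ → ℍ → ℂ) (μ : Measure (XG Γ)), Tendsto r atTop atTop → (∀ k, Eig Γ (r k) (φ k)) → (∀ k, nn F₀ (φ k) = 1) →
      IsProbabilityMeasure μ → MP Γ F₀ β α r φ μ → GP Γ μ K := by
  obtain ⟨-, hprc, -, -, hsur, -, -, -, -, -, -, hmkM⟩ := EN.A_XFL Γ
  obtain ⟨K, hK, hHM⟩ := A_HMG Γ F₀ β α hΓ hF₀ hβ hα'
  refine ⟨K, hK, ?_⟩
  intro r φ μ hr hφ hn0 hμ hlow
  intro ε C3 δ L0 εc B' l0 n Ψ Ψa Ψn Ψl Ψ' Ψa' Ψn' Ψl' hε hε1 hC3 hδ hδε hL0 hεc hl0 hS hS' h01 h01' hn1 hn2 hn3 hn4 hLF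
  obtain ⟨r2, hr2, hfinal⟩ := hHM ε C3 δ L0 εc B' l0 n Ψ Ψa Ψn Ψl Ψ' Ψa' Ψn' Ψl' hε hε1 hC3 hδ hδε hL0 hεc hl0
    hS hS' h01 h01' hn1 hn2 hn3 hn4 hLF
  have hI := hS.i0
  have hI' := hS'.i0
  have hc := DU1_lift_cont Γ Ψ hI
  have hc' := DU1_lift_cont Γ Ψ' hI'
  have g01 : ∀ x, 0 ≤ DU1_lift Γ Ψ hI x ∧ DU1_lift Γ Ψ hI x ≤ 1 := by
    intro x
    obtain ⟨g, rfl⟩ := hsur x
    exact h01 g
  have g01' : ∀ x, 0 ≤ DU1_lift Γ Ψ' hI' x ∧ DU1_lift Γ Ψ' hI' x ≤ 1 := by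
    intro x
    obtain ⟨g, rfl⟩ := hsur x
    exact h01' g
  have hi := HLG_low Γ hsur μ hμ Ψ hI h01
  have hi' := HLG_low Γ hsur μ hμ Ψ' hI' h01'
  set m : ℝ := μ.real (one Γ Ψ) + μ.real (one Γ Ψ') with hm
  have hm0 : 0 ≤ m := add_nonneg measureReal_nonneg measureReal_nonneg
  have hm2 : m ≤ 2 := by
    have h1 : μ.real (one Γ Ψ) ≤ 1 := measureReal_le_one
    have h2 : μ.real (one Γ Ψ') ≤ 1 := measureReal_le_one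
    linarith
  have hsum : ∫ x, (DU1_lift Γ Ψ hI x + DU1_lift Γ Ψ' hI' x) ∂μ =
      ∫ x, DU1_lift Γ Ψ hI x ∂μ + ∫ x, DU1_lift Γ Ψ' hI' x ∂μ :=
    integral_add (DU1_int Γ μ hμ _ hc g01) (DU1_int Γ μ hμ _ hc' g01')
  have hb : m - 4 * δ < ∫ x, (DU1_lift Γ Ψ hI x + DU1_lift Γ Ψ' hI' x) ∂μ := by
    rw [hsum]
    linarith
  have hfr := hlow (fun x => DU1_lift Γ Ψ hI x + DU1_lift Γ Ψ' hI' x) (m - 4 * δ) (hc.add hc') hb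
  have hev : ∀ᶠ k in atTop, r2 ≤ r k := hr.eventually (eventually_ge_atTop r2)
  obtain ⟨k, ⟨t, ht1, ht2, ht3⟩, hk⟩ := (hfr.and_eventually hev).exists
  refine hfinal (r k) m t (φ k) hk ?_ (hn0 k) hm0 hm2 ht1 ht2 ht3
  exact ⟨(hφ k).1.of_le (WithTop.coe_le_coe.2 (le_top : (2 : ℕ∞) ≤ ⊤)), (hφ k).2.1, fun z => by rw [(hφ k).2.2 z]⟩

/-- the reflection inequality from `GP` -/
theorem core_refl (Γ : Subgroup SL(2, ℝ)) (μ : Measure (XG Γ)) (K : ℝ) (hΓ : QU.SurfaceGroup Γ) (hμ : IsProbabilityMeasure μ) (hfl : ∀ t, μ.map (fl Γ t) = μ)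
    (hK : 1 ≤ K) (H : GP Γ μ K) (a : ℝ) (ha : 1 / 2 ≤ a) (ha1 : a < 1) :
    μ (Low Γ μ a) + μ (Low Γ μ ((1 - a) * (1 + (2 * a - 1) / 200))) ≤ 1 := by
  rcases eq_or_lt_of_le ha with h | h
  · obtain ⟨a0, ha0, H0⟩ := A_HLH Γ μ K hΓ hμ hK H
    have key : μ.real (Low Γ μ (1 / 2)) + μ.real (Low Γ μ (1 / 2)) ≤ 1 := by
      have e : (1 : ℝ) - 1 / 2 = 1 / 2 := by norm_num
      obtain ⟨a1, ha1, H1⟩ := CR.A_HCW Γ μ (1 / 2) (Low Γ μ (1 / 2)) (Low Γ μ (1 / 2)) hΓ hμ hfl (by norm_num) le_rfl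
        (ER.A_LDE Γ μ (1 / 2) hΓ hμ hfl (by norm_num)) (by rw [e]; exact ER.A_LDE Γ μ (1 / 2) hΓ hμ hfl (by norm_num))
      exact H0 (min a0 a1) (lt_min ha0 ha1) (min_le_left _ _) (μ.real (Low Γ μ (1 / 2))) (μ.real (Low Γ μ (1 / 2))) measureReal_nonneg
        measureReal_le_one measureReal_nonneg measureReal_le_one (H1 (min a0 a1) (lt_min ha0 ha1) (min_le_right _ _))
    rw [← h]
    have e : (1 - 1 / 2 : ℝ) * (1 + (2 * (1 / 2) - 1) / 200) = 1 / 2 := by norm_num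
    rw [e]
    exact all_enn μ _ _ key
  · exact all_enn μ _ _ (IRM_core RS.A_GLC A_FWD A_BK1 A_BK2 A_SFP A_NUM Γ μ K hΓ hμ hfl hK H a h ha1)

/-- **core theorem**: every flow invariant probability measure `μ` with the property `MP` satisfies the improved reflection inequality -/
theorem core (Γ : Subgroup SL(2, ℝ)) (F₀ : Set ℍ) (β α : ℝ → ℝ) (r : ℕ → ℝ) (φ : ℕ → ℍ → ℂ) (μ : Measure (XG Γ)) (hΓ : QU.SurfaceGroup Γ) (hF₀ : QU.NiceDom Γ F₀)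
    (hβ : BB (1 / 4) β) (hα : BA (1 / 8) α) (hr : Tendsto r atTop atTop) (hφ : ∀ k, Eig Γ (r k) (φ k)) (hn : ∀ k, nn F₀ (φ k) = 1)
    (hμ : IsProbabilityMeasure μ) (hfl : ∀ t, μ.map (fl Γ t) = μ) (hMP : MP Γ F₀ β α r φ μ) (a : ℝ) (ha : 1 / 2 ≤ a) (ha1 : a < 1) :
    μ (Low Γ μ a) + μ (Low Γ μ ((1 - a) * (1 + (2 * a - 1) / 200))) ≤ 1 := by
  obtain ⟨K, hK, H⟩ := core_gp Γ F₀ β α hΓ hF₀ hβ hα
  exact core_refl Γ μ K hΓ hμ hfl hK (H r φ μ hr hφ hn hμ hMP) a ha ha1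

/-- existence of a lift with the property `MP`, for a nice domain `F₀` -/
theorem core_exists (Γ : Subgroup SL(2, ℝ)) (F₀ : Set ℍ) (β α : ℝ → ℝ) (r : ℕ → ℝ) (φ : ℕ → ℍ → ℂ) (ν : Measure (MG Γ)) (hΓ : QU.SurfaceGroup Γ) (hF₀ : QU.NiceDom Γ F₀)
    (hβ : BB (1 / 4) β) (hα : BA (1 / 8) α) (hr : Tendsto r atTop atTop) (hφ : ∀ k, Eig Γ (r k) (φ k)) (hn : ∀ k, nn F₀ (φ k) = 1) (hfin : IsFiniteMeasure ν)
    (hν : ∀ V : MG Γ → ℝ, Continuous V → Tendsto (fun k => ∫ z in F₀, V (mkM Γ z) * ‖φ k z‖ ^ 2) atTop (𝓝 (∫ x, V x ∂ν))) :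
    ∃ μ : Measure (XG Γ), IsProbabilityMeasure μ ∧ (∀ t, μ.map (fl Γ t) = μ) ∧ μ.map (pr Γ) = ν ∧ MP Γ F₀ β α r φ μ ∧
      ∀ a : ℝ, 1 / 2 ≤ a → a < 1 → μ (Low Γ μ a) + μ (Low Γ μ ((1 - a) * (1 + (2 * a - 1) / 200))) ≤ 1 := by
  obtain ⟨μ, hμ, hfl, hmap, hlow⟩ := MS.A_MU Γ F₀ β α r φ ν hΓ hF₀ hβ hα hr hφ hn hfin hν
  exact ⟨μ, hμ, hfl, hmap, hlow, fun a ha ha1 => core Γ F₀ β α r φ μ hΓ hF₀ hβ hα hr hφ hn hμ hfl hlow a ha ha1⟩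

/-- the mean local entropy from the reflection inequality -/
theorem core_mean (Γ : Subgroup SL(2, ℝ)) (μ : Measure (XG Γ)) (hΓ : QU.SurfaceGroup Γ) (hμ : IsProbabilityMeasure μ)
    (H : ∀ a : ℝ, 1 / 2 ≤ a → a < 1 → μ (Low Γ μ a) + μ (Low Γ μ ((1 - a) * (1 + (2 * a - 1) / 200))) ≤ 1) :
    Measurable (loc Γ μ) ∧ (∀ x, 0 ≤ loc Γ μ x ∧ loc Γ μ x ≤ 1) ∧ (∀ t : ℝ, 0 ≤ t → t < 1 → {x | loc Γ μ x ≤ t} = Low Γ μ t) ∧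
      1 / 2 + 1 / 200 * ∫ x, max 0 ((2 * loc Γ μ x - 1) * (1 - loc Γ μ x)) ∂μ ≤ ∫ x, loc Γ μ x ∂μ := by
  obtain ⟨hm, h01, hle⟩ := A_LOC Γ μ hΓ hμ
  refine ⟨hm, h01, hle, A_MEN (XG Γ) μ (loc Γ μ) hμ hm h01 fun h h1 h2 => ?_⟩
  have h3 : 0 ≤ (1 - h) * (1 + (2 * h - 1) / 200) := mul_nonneg (by linarith) (by linarith)
  have h4 : (1 - h) * (1 + (2 * h - 1) / 200) < 1 := by nlinarith
  rw [hle h (by linarith) h2, hle _ h3 h4]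
  have h5 := H h h1.le h2
  have h6 := ENNReal.toReal_mono ENNReal.one_ne_top h5
  rw [ENNReal.toReal_add (measure_ne_top μ _) (measure_ne_top μ _), ENNReal.toReal_one] at h6
  exact h6

end Pool.Agent.IR
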